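import Pool.Agent.N378.KH.Stm2
import Pool.Agent.N378.KH.Main
import Pool.Agent.N383.KHLIN
import Pool.Agent.N513.KHMEAS

/-!
# Project KH (helper378), VOL: volume of the event in all coordinates
-/

set_option autoImplicit false

open MeasureTheory Finset
open scoped ENNReal

namespace Pool.Agent.N931.KH

open Pool.Agent.N378.KH

theorem ht_up {n m : ℕ} (j : Fin (m + 1)) (a : Fin m → ℝ) (Q : Finset (Fin n))
    (x : Fin n × Fin (m + 1) → ℝ) (R : Finset (Fin n × Fin (m + 1))) (hR : ∀ e ∈ R, e.1 ∈ Q)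
    (w : R → ℝ) {i : Fin n} (hi : i ∉ Q) :
    ht j a (Function.updateFinset x R w) i = ht j a x i := by
  have h : ∀ l, Function.updateFinset x R w (i, l) = x (i, l) := by
    intro l
    rw [Function.updateFinset, dif_neg]
    intro h
    exact hi (hR _ h)
  simp only [ht, h]

theorem slopes_up {n m : ℕ} (j : Fin (m + 1)) (s : ℝ) (k : ℕ) (Q : Finset (Fin n))
    (x : Fin n × Fin (m + 1) → ℝ) (R : Finset (Fin n × Fin (m + 1))) (hR : ∀ e ∈ R, e.1 ∈ Q)
    (w : R → ℝ) {p : Fin n} (hp : p ∉ Q) :
    slopes j s k Q p (Function.updateFinset x R w) = slopes j s k Q p x := by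
  have hb : ∀ a, below j s a (Function.updateFinset x R w) Q p = below j s a x Q p := by
    intro a
    ext i
    simp only [below, Finset.mem_filter, Finset.mem_univ, true_and]
    constructor
    · rintro ⟨h1, h2⟩
      rw [ht_up j a Q x R hR w h1, ht_up j a Q x R hR w hp] at h2
      exact ⟨h1, h2⟩
    · rintro ⟨h1, h2⟩
      rw [ht_up j a Q x R hR w h1, ht_up j a Q x R hR w hp]
      exact ⟨h1, h2⟩
  ext a
  simp only [slopes, Set.mem_setOf_eq, hb]

theorem t_VOL : Pool.Agent.N378.KH.S_VOL := by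
  intro n m k j s Q p hQ hp x
  have hE : MeasurableSet (Ev (n := n) (m := m) j s k Q p) :=
    Pool.Agent.N513.KH.t_MEAS n m k j s Q p
  have hu : (Q ×ˢ (Finset.univ : Finset (Fin (m + 1))) : Finset (Fin n × Fin (m + 1))) =
      (Q ×ˢ (Finset.univ.erase j)) ∪ (Q ×ˢ {j}) := by
    rw [← Finset.product_union]
    congr 1
    ext l
    simp
  have hd : Disjoint (Q ×ˢ (Finset.univ.erase j) : Finset (Fin n × Fin (m + 1))) (Q ×ˢ {j}) := by
    rw [Finset.disjoint_left]
    rintro ⟨i, l⟩ h1 h2
    simp only [Finset.mem_product, Finset.mem_erase, Finset.mem_singleton] at h1 h2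
    exact h1.2.1 h2.2
  rw [hu, lmarginal_union _ _ (measurable_const.indicator hE) hd]
  set S2 : Finset (Fin n × Fin (m + 1)) := Q ×ˢ (Finset.univ.erase j) with hS2
  have hR : ∀ e ∈ S2, e.1 ∈ Q := fun e he => (Finset.mem_product.1 he).1
  set c : ℝ≥0∞ := ENNReal.ofReal (m.factorial * 2 ^ m) * volume (slopes j s k Q p x) with hc
  have key : ∀ w : S2 → ℝ, (∫⋯∫⁻_(Q ×ˢ {j}), (Ev j s k Q p).indicator (fun _ => 1) ∂fun _ => volume)
      (Function.updateFinset x S2 w) ≤
      (Set.pi Set.univ fun _ : S2 => Set.Icc (-1 : ℝ) 1).indicator (fun _ => c) w := by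
    intro w
    rw [marg_ind _ _ hE]
    by_cases hw : w ∈ Set.pi Set.univ fun _ : S2 => Set.Icc (-1 : ℝ) 1
    · rw [Set.indicator_of_mem hw]
      have h1 := Pool.Agent.N383.KH.t_LIN n m k j s Q p hQ hp (Function.updateFinset x S2 w)
      rw [slopes_up j s k Q x S2 hR w hp] at h1
      exact h1
    · rw [Set.indicator_of_notMem hw]
      have h0 : {y : (Q ×ˢ {j} : Finset (Fin n × Fin (m + 1))) → ℝ |
          Function.updateFinset (Function.updateFinset x S2 w) (Q ×ˢ {j}) y ∈ Ev j s k Q p} = ∅ := by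
        rw [Set.eq_empty_iff_forall_notMem]
        intro y hy
        apply hw
        intro e _
        have h1 := hy.1 (e : Fin n × Fin (m + 1))
        have h2 : (e : Fin n × Fin (m + 1)) ∉ (Q ×ˢ {j} : Finset (Fin n × Fin (m + 1))) :=
          fun h => (Finset.disjoint_left.1 hd e.2) h
        rw [Function.updateFinset, dif_neg h2, Function.updateFinset, dif_pos e.2] at h1
        exact abs_le.1 h1
      rw [h0, measure_empty]
  rw [lmarginal]
  refine (lintegral_mono key).trans ?_
  rw [lintegral_indicator_const (MeasurableSet.univ_pi fun _ => measurableSet_Icc),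
    Measure.pi_pi]
  have hcard : Fintype.card S2 = m * m := by
    rw [Fintype.card_coe, hS2, Finset.card_product, hQ, Finset.card_erase_of_mem (Finset.mem_univ j),
      Finset.card_univ, Fintype.card_fin, Nat.add_sub_cancel]
  rw [Real.volume_Icc, Finset.prod_const, Finset.card_univ, hcard, mul_comm]
  norm_num

end Pool.Agent.N931.KH
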